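import Pool.Agent.H29.BO.Fin

/-!
# Delocalized traces and the Bost conjecture with coefficients

For a group `G` and a `C*`-algebra `A` with an action of `G`, a bounded trace on `ℓ¹(G, A)`, restricted to a conjugacy
class of elements of infinite order, vanishes on the image of the Bost assembly map; so the Bost conjecture predicts
that it vanishes on `K_0 (ℓ¹(G, A))`. This is proved here, for arbitrary `G` and `A`, for the elements `g` that satisfy
`Trans g`: there is a subadditive function `l` on `G` such that

* some `ψ`, additive on the centraliser `Z(g)`, satisfies `ψ ≤ l` on `Z(g)` and `ψ g ≠ 0`, or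
* `Z(g)` is amenable and `l (g ^ n) ≥ c n` for all `n`, for some `c > 0`.

Example: `G` acts by isometries on a complete `CAT(0)` space `X` and `g` has positive translation length;
`l h = d (x, h x)`, and `ψ` is minus the Busemann character of the limit point of `g`.

Definitions: `Act`, `conv`, `L1` (the algebra `ℓ¹(G, A)`), `L1.nn` (its norm) in `Pool/Agent/H29/BO/Cross.lean`,
`L1.part` (restriction to a subset) in `Sing.lean`, `Act.ofStar` in `Main.lean`, `Amen` in `Amen.lean`, `Trans` in
`Fin.lean`, all in the folder `Pool/Agent/H29/BO`.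
-/

set_option autoImplicit false

namespace Pool.Agent.Results.MP_566e43_al.DelocalizedTraces

open Pool.Agent.H29.BO

/-- Let `G` act on the `C*`-algebra `A` by `*`-automorphisms, let `K ⊆ G` be invariant under conjugation and suppose
that `Trans g` for all `g ∈ K`. Let `τ` be a bounded trace on `ℓ¹(G, A)`. Then every idempotent matrix `P` over the
unitization of `ℓ¹(G, A)` satisfies `∑ i, τ (P i i restricted to K) = 0`. -/
theorem result {G A : Type*} [Group G] [NonUnitalCStarAlgebra A] (α : G →* (A ≃⋆ₐ[ℂ] A))
    (K : Set G) (hK : ∀ x ∈ K, ∀ y, IsConj x y → y ∈ K) (hT : ∀ x ∈ K, Trans x)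
    (τ : L1 (Act.ofStar α) →ₗ[ℂ] ℂ) (C : ℝ) (hC : ∀ f, ‖τ f‖ ≤ C * f.nn)
    (hτ : ∀ f f', τ (f * f') = τ (f' * f)) (m : ℕ)
    (P : Matrix (Fin m) (Fin m) (Unitization ℂ (L1 (Act.ofStar α)))) (hP : P * P = P) :
    ∑ i, τ ((P i i).snd.part K) = 0 :=
  mainK (Act.ofStar α) K hK hT τ C hC hτ m P hP

end Pool.Agent.Results.MP_566e43_al.DelocalizedTraces
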